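import Pool.Agent.helper17.MK.Spec
import Pool.Agent.helper13.MT.TR1

/-!
# Project MK, row FX: expansion of `FF` in indicators
-/

set_option autoImplicit false

namespace Pool.Agent.MK

open Finset Real Pool.Agent.helper39.MT Pool.Agent.helper85.FC

/-- The local coefficients. -/
noncomputable def FX_co {k : ℕ} (p : ℝ) (s t : Option (Fin k)) : ℝ :=
  match t with
  | none => Phi p s none
  | some i => Phi p s (some i) - Phi p s none

lemma FX_local {k : ℕ} (p : ℝ) (s e : Option (Fin k)) :
    Phi p s e = ∑ t, FX_co p s t * TR1.loc t e := by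
  rw [Fintype.sum_option]
  cases e with
  | none =>
    have : ∀ i : Fin k, FX_co p s (some i) * TR1.loc (some i) none = 0 := by
      intro i
      simp [TR1.loc]
    rw [sum_congr rfl fun i _ => this i]
    simp [TR1.loc, FX_co]
  | some j =>
    have : ∀ i : Fin k, FX_co p s (some i) * TR1.loc (some i) (some j) =
        if i = j then FX_co p s (some j) else 0 := by
      intro i
      by_cases h : i = j
      · subst h
        simp [TR1.loc]
      · have h' : ¬ j = i := fun h' => h h'.symm
        simp [TR1.loc, h, h']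
    rw [sum_congr rfl fun i _ => this i, Finset.sum_ite_eq' univ j]
    simp [TR1.loc, FX_co]

lemma FX_co_sum {k : ℕ} {p : ℝ} (hp : 2 ≤ p) (t : Option (Fin k)) :
    ∑ s : Option (Fin k), |FX_co p s t| ≤ (1 + (k : ℝ) / (p - 1)) * if t = none then 1 else 2 := by
  have hp' : (0 : ℝ) < p - 1 := by linarith
  have hk : (0 : ℝ) ≤ (k : ℝ) / (p - 1) := by positivity
  cases t with
  | none =>
    simp only [FX_co]
    rw [TR1.Phi_none_abs (by linarith)]
    simp
  | some i =>
    simp only [FX_co]
    rw [TR1.Phi_diff_abs (by linarith), if_neg (by simp)]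
    have h3 : p / (p - 1) ≤ 2 := by
      rw [div_le_iff₀ hp']
      linarith
    linarith

lemma FX_co_ne {k : ℕ} (p : ℝ) (s : Option (Fin k)) (i : Fin k) (h : FX_co p s (some i) ≠ 0) :
    s = some i := by
  by_contra hcon
  apply h
  cases s with
  | none => simp [FX_co, Phi]
  | some j =>
    have hj : ¬ (some i = some j) := fun h => hcon h.symm
    simp only [FX_co, Phi]
    rw [if_neg hj, if_neg (by simp), sub_self]

theorem FX : FX_stmt := by
  classical
  intro ι _ _ k pr A M Y y hpr hM hy hsupp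
  refine ⟨fun τ => ∑ σ : ι → Option (Fin k), y σ * ∏ p, FX_co (pr p : ℝ) (σ p) (τ p), ?_, ?_, ?_⟩
  · intro e
    have h1 : ∀ σ : ι → Option (Fin k), y σ * ∏ p, Phi (pr p : ℝ) (σ p) (e p) =
        ∑ τ, (y σ * ∏ p, FX_co (pr p : ℝ) (σ p) (τ p)) * ind τ e := by
      intro σ
      rw [prod_congr rfl fun p _ => FX_local (pr p : ℝ) (σ p) (e p), ← TR1.sum_pi, mul_sum]
      refine sum_congr rfl fun τ _ => ?_
      rw [prod_mul_distrib]
      simp only [ind, TR1.loc]
      ring
    rw [FF, sum_congr rfl fun σ _ => h1 σ, sum_comm]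
    simp only [sum_mul]
  · intro τ
    have h1 : |∑ σ : ι → Option (Fin k), y σ * ∏ p, FX_co (pr p : ℝ) (σ p) (τ p)| ≤
        ∑ σ : ι → Option (Fin k), M * ∏ p, |FX_co (pr p : ℝ) (σ p) (τ p)| := by
      refine (abs_sum_le_sum_abs _ _).trans (sum_le_sum fun σ _ => ?_)
      rw [abs_mul, Finset.abs_prod]
      exact mul_le_mul_of_nonneg_right (hy σ) (prod_nonneg fun p _ => abs_nonneg _)
    refine h1.trans ?_
    rw [← mul_sum, TR1.sum_pi fun p s => |FX_co (pr p : ℝ) s (τ p)|, mul_assoc]
    refine mul_le_mul_of_nonneg_left ?_ hM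
    have h2 : ((2 : ℕ) : ℝ) ^ (supp τ).card = ∏ p, if τ p = none then (1 : ℝ) else 2 := by
      rw [supp, ← prod_const, Finset.prod_filter]
      refine prod_congr rfl fun p _ => ?_
      by_cases h : τ p = none
      · simp [h]
      · simp [h]
    rw [h2, ← prod_mul_distrib]
    refine prod_le_prod (fun p _ => sum_nonneg fun s _ => abs_nonneg _) fun p _ => ?_
    exact FX_co_sum (by exact_mod_cast hpr p) (τ p)
  · intro τ hτ
    dsimp only at hτ
    obtain ⟨σ, -, hσ⟩ := exists_ne_zero_of_sum_ne_zero hτ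
    have hy0 : y σ ≠ 0 := fun h => hσ (by rw [h, zero_mul])
    have hpr0 : ∀ p, FX_co (pr p : ℝ) (σ p) (τ p) ≠ 0 := by
      intro p h
      exact hσ (by rw [Finset.prod_eq_zero (mem_univ p) h, mul_zero])
    have hτσ : ∀ p i, τ p = some i → σ p = some i := by
      intro p i hp
      have := hpr0 p
      rw [hp] at this
      exact FX_co_ne _ _ _ this
    obtain ⟨h1, h2⟩ := hsupp σ hy0
    refine ⟨le_trans ?_ h1, fun p i hp => h2 p i (hτσ p i hp)⟩
    have h3 : dd pr τ ≤ dd pr σ := by
      unfold dd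
      refine prod_le_prod' fun p _ => ?_
      by_cases hp : τ p = none
      · rw [if_pos hp]
        split_ifs
        · exact le_rfl
        · exact (by norm_num : 1 ≤ 2).trans (hpr p)
      · obtain ⟨i, hi⟩ := Option.ne_none_iff_exists'.1 hp
        rw [if_neg hp, if_neg (by rw [hτσ p i hi]; simp)]
    exact_mod_cast h3

end Pool.Agent.MK
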