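import Pool.Agent.helper17.MK.Spec
import Pool.Agent.Lib.BrunHooley

/-!
# Project MK, row TP: triples
-/

set_option autoImplicit false

namespace Pool.Agent.MK

open Finset Real Pool.Agent.helper39.MT Pool.Agent.helper85.FC

lemma TP_sum (P : Finset ℕ) (F : Finset ℕ → ℝ) :
    ∑ K ∈ P.powerset, c3 K * F K = ∑ K ∈ powersetCard 3 P, F K := by
  rw [powersetCard_eq_filter, sum_filter]
  refine sum_congr rfl fun K _ => ?_
  unfold c3
  split_ifs <;> simp

theorem TP : TP_stmt := by
  refine ⟨fun T => ?_, fun g P hg => ?_⟩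
  · have h := TP_sum T (fun _ => 1)
    simp only [mul_one] at h
    rw [Sg, h, sum_const, card_powersetCard, nsmul_eq_mul, mul_one]
  · have h := TP_sum P (fun K => ∏ p ∈ K, g p)
    have h2 := Pool.Agent.Lib.BrunHooley.es_le_pow_div P g hg 3
    unfold Pool.Agent.Lib.BrunHooley.es at h2
    rw [Mn, h]
    refine ⟨sum_nonneg fun K hK => prod_nonneg fun p hp =>
      hg p ((mem_powersetCard.1 hK).1 hp), h2.trans (le_of_eq ?_)⟩
    norm_num [Nat.factorial]

end Pool.Agent.MK
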