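import Pool.Agent.helper11.MK.Defs
import Pool.Agent.helper17.MK.All

/-!
# Two primes in four clusters (MP_bf63dc_nt)

The analytic part is the project MK of helper17 (`Pool.Agent.helper17.MK.Spec`, `All`), a strengthening of
`Pool.Agent.helper85.FC` in the direction of work of Merikoski.
-/

namespace Pool.Agent.helper11.MK

/-- Two primes in four clusters of linear forms. -/
theorem cm4 : CM4_stmt := Pool.Agent.MK.FM_all

end Pool.Agent.helper11.MK
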