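import Pool.Agent.helper39.MT.Defs

/-!
# Two primes in four clusters (MP_bf63dc_nt): the statements of the main theorems
-/

namespace Pool.Agent.helper11.MK

open Finset Pool.Agent.helper39.MT

/-- The cluster of an index. -/
def cl4 {kc : ℕ} (i : Fin (4 * kc)) : Fin 4 := (finProdFinEquiv.symm i).1

/-- Two primes in four clusters, forms in standard position. -/
def CS4_stmt : Prop := ∃ kc D₀ : ℕ, 1 ≤ kc ∧ ∀ (A B : Fin (4 * kc) → ℕ) (W : ℕ),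
    Std (4 * kc) D₀ A B W → ∀ N : ℕ, ∃ n ≥ N, ∃ i j, cl4 i ≠ cl4 j ∧
      (A i * n + B i).Prime ∧ (A j * n + B j).Prime

/-- Two primes in four clusters, admissible forms. -/
def CM4_stmt : Prop := ∃ kc : ℕ, 1 ≤ kc ∧ ∀ (A : Fin (4 * kc) → ℕ) (B : Fin (4 * kc) → ℤ),
    (∀ i, 0 < A i) → (∀ i j, i ≠ j → (A i : ℤ) * B j ≠ A j * B i) →
    (∀ p : ℕ, p.Prime → ∃ n : ℕ, ∀ i, ¬ (p : ℤ) ∣ A i * n + B i) →
    ∀ N : ℕ, ∃ n ≥ N, ∃ i j, cl4 i ≠ cl4 j ∧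
      ((A i : ℤ) * n + B i).toNat.Prime ∧ ((A j : ℤ) * n + B j).toNat.Prime

end Pool.Agent.helper11.MK
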