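import Mathlib

/-!
# A density form of the Erdos-Stone theorem

If a symmetric relation on a set contains a pair from two different classes among any `4` classes
of `t` elements, then a third of the pairs of every finite set are related.
-/

namespace Pool.Agent.helper11.MK

open Finset Filter

/-- the Erdos-Stone theorem: a vertex of small degree. -/
lemma es_vertex (t : ℕ) {ε : ℝ} (hε : 0 < ε) : ∃ n₀ : ℕ, ∀ {α : Type} [DecidableEq α]
    (S : Finset α) (G : SimpleGraph α) [DecidableRel G.Adj], n₀ ≤ #S →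
    (∀ f : Fin 4 × Fin t → α, Function.Injective f → (∀ x, f x ∈ S) →
      ∃ x y, x.1 ≠ y.1 ∧ ¬ G.Adj (f x) (f y)) →
    ∃ v ∈ S, (#{w ∈ S | G.Adj v w} : ℝ) < (2 / 3 + ε) * #S := by
  classical
  obtain ⟨n₁, hn₁⟩ := eventually_atTop.1
    (SimpleGraph.eventually_completeEquipartiteGraph_isContained_of_minDegree hε 3 t)
  refine ⟨max n₁ 1, fun {α} _ S G _ hS hG => ?_⟩
  by_contra hcon
  push Not at hcon
  set e : Fin #S ≃ S := S.equivFin.symm with he
  set G' : SimpleGraph (Fin #S) := G.comap (fun i => ((e i : S) : α)) with hG'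
  have hne : Nonempty (Fin #S) := ⟨⟨0, by omega⟩⟩
  have hdeg : ∀ i : Fin #S, ⌈(2 / 3 + ε) * (#S : ℝ)⌉₊ ≤ G'.degree i := by
    intro i
    rw [Nat.ceil_le]
    refine (hcon _ (e i).2).trans ?_
    have h1 : #{w ∈ S | G.Adj (e i) w} ≤ G'.degree i := by
      rw [← SimpleGraph.card_neighborFinset_eq_degree]
      refine card_le_card_of_injOn (fun w => if h : w ∈ S then e.symm ⟨w, h⟩ else i) ?_ ?_
      · intro w hw
        simp only [coe_filter, Set.mem_ofPred_eq] at hw
        simp only [dif_pos hw.1]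
        simp only [SimpleGraph.coe_neighborFinset, SimpleGraph.mem_neighborSet]
        rw [hG', SimpleGraph.comap_adj]
        simpa using hw.2
      · intro w hw w' hw' heq
        simp only [coe_filter, Set.mem_ofPred_eq] at hw hw'
        simp only [dif_pos hw.1, dif_pos hw'.1] at heq
        have := e.symm.injective heq
        exact congrArg Subtype.val this
    exact_mod_cast h1
  have hmin : ((1 : ℝ) - 1 / ((3 : ℕ) : ℝ) + ε) * (#S : ℕ) ≤ G'.minDegree := by
    have h1 := G'.le_minDegree_of_forall_le_degree _ hdeg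
    have h2 : (⌈(2 / 3 + ε) * (#S : ℝ)⌉₊ : ℝ) ≤ G'.minDegree := by exact_mod_cast h1
    have h3 := Nat.le_ceil ((2 / 3 + ε) * (#S : ℝ))
    have h4 : ((1 : ℝ) - 1 / ((3 : ℕ) : ℝ) + ε) = 2 / 3 + ε := by norm_num
    rw [h4]
    linarith
  obtain ⟨f⟩ := hn₁ #S ((le_max_left _ _).trans hS) (G := G') hmin
  obtain ⟨x, y, hxy, hadj⟩ := hG (fun x => ((e (f.toHom x) : S) : α)) (by
    intro x y h
    exact f.injective (e.injective (Subtype.ext h))) (fun x => (e (f.toHom x)).2)
  apply hadj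
  have h1 : (SimpleGraph.completeEquipartiteGraph 4 t).Adj x y := by
    rw [SimpleGraph.completeEquipartiteGraph_adj]
    exact hxy
  have h2 := f.toHom.map_adj h1
  exact SimpleGraph.comap_adj.1 h2

/-- the number of adjacent pairs. -/
lemma es_edges (t : ℕ) {ε : ℝ} (hε : 0 < ε) (hε1 : ε ≤ 1 / 3) : ∃ K : ℕ, ∀ {α : Type} [DecidableEq α]
    (G : SimpleGraph α) [DecidableRel G.Adj] (S : Finset α),
    (∀ f : Fin 4 × Fin t → α, Function.Injective f → (∀ x, f x ∈ S) →
      ∃ x y, x.1 ≠ y.1 ∧ ¬ G.Adj (f x) (f y)) →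
    (#{p ∈ S ×ˢ S | G.Adj p.1 p.2} : ℝ) ≤ (2 / 3 + ε) * (#S : ℝ) ^ 2 + K * #S := by
  classical
  obtain ⟨n₀, hn₀⟩ := es_vertex t hε
  refine ⟨n₀ + 1, fun {α} _ G _ S => ?_⟩
  induction S using Finset.strongInduction with
  | H S ih =>
    intro hS
    rcases lt_or_ge #S n₀ with hlt | hge
    · have h1 : (#{p ∈ S ×ˢ S | G.Adj p.1 p.2} : ℝ) ≤ (#S : ℝ) ^ 2 := by
        have := (card_filter_le (S ×ˢ S) (fun p => G.Adj p.1 p.2)).trans (card_product S S).le
        have h2 : (#{p ∈ S ×ˢ S | G.Adj p.1 p.2} : ℝ) ≤ #S * #S := by exact_mod_cast this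
        rw [sq]
        exact h2
      have h2 : (#S : ℝ) ≤ n₀ := by exact_mod_cast hlt.le
      have h3 : (0 : ℝ) ≤ #S := Nat.cast_nonneg _
      push_cast
      nlinarith [mul_nonneg (by linarith : (0 : ℝ) ≤ 2 / 3 + ε) (sq_nonneg (#S : ℝ)),
        mul_le_mul_of_nonneg_right h2 h3]
    · obtain ⟨v, hv, hdeg⟩ := hn₀ S G hge hS
      have hsub : S.erase v ⊂ S := erase_ssubset hv
      have h1 := ih _ hsub (fun f hf hfS => hS f hf (fun x => mem_of_mem_erase (hfS x)))
      have hcard : (#(S.erase v) : ℝ) = #S - 1 := by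
        rw [card_erase_of_mem hv, Nat.cast_sub (card_pos.2 ⟨v, hv⟩), Nat.cast_one]
      have h2 : #{p ∈ S ×ˢ S | G.Adj p.1 p.2} ≤
          #{p ∈ S.erase v ×ˢ S.erase v | G.Adj p.1 p.2} + 2 * #{w ∈ S | G.Adj v w} := by
        have h3 : {p ∈ S ×ˢ S | G.Adj p.1 p.2} ⊆ {p ∈ S.erase v ×ˢ S.erase v | G.Adj p.1 p.2} ∪
            (({w ∈ S | G.Adj v w}.image fun w => (v, w)) ∪
              ({w ∈ S | G.Adj v w}.image fun w => (w, v))) := by
          rintro ⟨x, y⟩ hp
          simp only [mem_filter, mem_product] at hp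
          simp only [mem_union, mem_filter, mem_product, mem_erase, mem_image, Prod.mk.injEq]
          by_cases hx : x = v
          · right; left
            exact ⟨y, ⟨hp.1.2, hx ▸ hp.2⟩, hx.symm, rfl⟩
          · by_cases hy : y = v
            · right; right
              exact ⟨x, ⟨hp.1.1, hy ▸ hp.2.symm⟩, rfl, hy.symm⟩
            · left
              exact ⟨⟨⟨hx, hp.1.1⟩, hy, hp.1.2⟩, hp.2⟩
        refine (card_le_card h3).trans ((card_union_le _ _).trans ?_)
        refine Nat.add_le_add_left ((card_union_le _ _).trans ?_) _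
        have h4 := card_image_le (s := {w ∈ S | G.Adj v w}) (f := fun w => (v, w))
        have h5 := card_image_le (s := {w ∈ S | G.Adj v w}) (f := fun w => (w, v))
        omega
      have h3 : (#{p ∈ S ×ˢ S | G.Adj p.1 p.2} : ℝ) ≤
          #{p ∈ S.erase v ×ˢ S.erase v | G.Adj p.1 p.2} + 2 * #{w ∈ S | G.Adj v w} := by
        exact_mod_cast h2
      rw [hcard] at h1
      push_cast at h1 ⊢
      have h6 : (0 : ℝ) ≤ n₀ := Nat.cast_nonneg _
      nlinarith [h1, h3, hdeg]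

/-- **a quarter of the pairs**. -/
theorem es_third (t : ℕ) {ε : ℝ} (hε : 0 < ε) : ∃ K : ℕ, ∀ {α : Type} [DecidableEq α]
    (R : α → α → Prop) [DecidableRel R] (S : Finset α), (∀ x y, R x y → R y x) →
    (∀ f : Fin 4 × Fin t → α, Function.Injective f → (∀ x, f x ∈ S) →
      ∃ x y, x.1 ≠ y.1 ∧ R (f x) (f y)) →
    (1 / 3 - ε) * (#S : ℝ) ^ 2 - K * #S ≤ #{p ∈ S ×ˢ S | p.1 ≠ p.2 ∧ R p.1 p.2} := by
  classical
  obtain ⟨K, hK⟩ := es_edges t (ε := min ε (1 / 3)) (lt_min hε (by norm_num)) (min_le_right _ _)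
  refine ⟨K + 1, fun {α} _ R _ S hR hS => ?_⟩
  set G : SimpleGraph α := { Adj := fun x y => x ≠ y ∧ ¬ R x y
                             symm := ⟨fun x y h => ⟨h.1.symm, fun h' => h.2 (hR _ _ h')⟩⟩
                             loopless := ⟨fun x h => h.1 rfl⟩ } with hG
  have h1 := hK G S (by
    intro f hf hfS
    obtain ⟨x, y, hxy, hr⟩ := hS f hf hfS
    exact ⟨x, y, hxy, fun h => h.2 hr⟩)
  have h2 : #{p ∈ S ×ˢ S | p.1 ≠ p.2 ∧ R p.1 p.2} + #{p ∈ S ×ˢ S | G.Adj p.1 p.2} + #S = #S * #S := by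
    have h3 : #{p ∈ S ×ˢ S | p.1 ≠ p.2 ∧ R p.1 p.2} + #{p ∈ S ×ˢ S | G.Adj p.1 p.2} =
        #{p ∈ S ×ˢ S | p.1 ≠ p.2} := by
      rw [← card_union_of_disjoint]
      · congr 1
        ext p
        simp only [mem_union, mem_filter, hG]
        tauto
      · rw [disjoint_filter]
        intro p _ h h'
        exact h'.2 h.2
    rw [h3]
    have h4 : {p ∈ S ×ˢ S | p.1 ≠ p.2} = S.offDiag := by
      ext p
      simp only [mem_filter, mem_product, mem_offDiag]
      tauto
    rw [h4, offDiag_card]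
    have : #S ≤ #S * #S := Nat.le_mul_self _
    omega
  have h3 : (#{p ∈ S ×ˢ S | p.1 ≠ p.2 ∧ R p.1 p.2} : ℝ) + #{p ∈ S ×ˢ S | G.Adj p.1 p.2} + #S =
      #S * #S := by exact_mod_cast h2
  have h4 : (min ε (1 / 3)) * (#S : ℝ) ^ 2 ≤ ε * (#S : ℝ) ^ 2 := by
    gcongr
    exact min_le_left _ _
  push_cast
  nlinarith [h1, h3, h4]

end Pool.Agent.helper11.MK
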