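import Pool.Agent.helper11.TX.Spec3
import Pool.Agent.helper11.MK.Defs
import Pool.Agent.helper11.MK.ES
import Pool.Agent.helper4.TX.GR

/-!
# Four clusters: a third of the pairs of vertices is good
-/

namespace Pool.Agent.helper11.MK

open Finset Pool.Agent.helper11.TX

/-- admissibility. -/
lemma GR4_adm {W kc q : ℕ} (h6 : 6 ∣ W)
    (hq : ∀ p : ℕ, p.Prime → p ≤ 4 * kc → ¬ p ∣ W → p ∣ q) (F : Fin (4 * kc) → ℕ × ℤ)
    (hV : ∀ i, Vx W (F i))
    (hcl : ∀ i j, cl4 i = cl4 j → (((F i).1 : ℕ) : ZMod q) = (((F j).1 : ℕ) : ZMod q) ∧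
      (((F i).2 : ℤ) : ZMod q) = (((F j).2 : ℤ) : ZMod q))
    (p : ℕ) (hp : p.Prime) : ∃ n : ℕ, ∀ i, ¬ (p : ℤ) ∣ ((F i).1 : ℤ) * n + -(F i).2 := by
  by_cases hpW : p ∣ W
  · refine ⟨0, fun i hd => ?_⟩
    rw [Nat.cast_zero, mul_zero, zero_add, dvd_neg] at hd
    have h4 := (hV i).2.2.isUnit_of_dvd' hd (by exact_mod_cast hpW)
    rw [Int.isUnit_iff] at h4
    have h5 := hp.one_lt
    omega
  · by_contra hcon
    push Not at hcon
    choose f hf using hcon
    by_cases hpk : p ≤ 4 * kc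
    · have hpq := hq p hp hpk hpW
      have hle : (range p).card ≤ (univ : Finset (Fin 4)).card := by
        refine Finset.card_le_card_of_injOn (fun n => cl4 (f n))
          (fun _ _ => Finset.mem_coe.mpr (Finset.mem_univ _)) ?_
        intro x hx y hy hxy
        obtain ⟨h1, h2⟩ := hcl (f x) (f y) hxy
        refine GR_root hp (hV (f x)).2.1 ?_ ?_ (by simpa using hx) (by simpa using hy)
          (hf x) (hf y)
        · rw [ZMod.natCast_eq_natCast_iff] at h1 ⊢
          exact h1.of_dvd hpq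
        · rw [ZMod.intCast_eq_intCast_iff] at h2 ⊢
          exact h2.of_dvd (by exact_mod_cast hpq)
      rw [Finset.card_range, Finset.card_univ, Fintype.card_fin] at hle
      have h2 : ¬ p ∣ 6 := fun h => hpW (h.trans h6)
      interval_cases p
      · exact hp.ne_zero rfl
      · exact hp.ne_one rfl
      · exact h2 (by norm_num)
      · exact h2 (by norm_num)
      · exact absurd hp (by norm_num)
    · have hle : (range p).card ≤ (univ : Finset (Fin (4 * kc))).card := by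
        refine Finset.card_le_card_of_injOn f
          (fun _ _ => Finset.mem_coe.mpr (Finset.mem_univ _)) ?_
        intro x hx y hy hxy
        exact GR_root hp (hV (f x)).2.1 (by rw [hxy]) (by rw [hxy]) (by simpa using hx)
          (by simpa using hy) (hf x) (hf y)
      rw [Finset.card_range, Finset.card_univ, Fintype.card_fin] at hle
      omega

/-- four blocks. -/
lemma GR4_blocks (h4 : CM4_stmt) (W : ℕ) (h6 : 6 ∣ W) : ∃ t : ℕ, ∀ f : Fin 4 × Fin t → ℕ × ℤ,
    Function.Injective f → (∀ x, Vx W (f x)) → ∃ x y, x.1 ≠ y.1 ∧ Rl (f x) (f y) := by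
  classical
  obtain ⟨kc, hkc, hmain⟩ := h4
  set q : ℕ := ∏ p ∈ (range (4 * kc + 1)).filter (fun p => p.Prime ∧ ¬ p ∣ W), p with hqdef
  have hq0 : 0 < q := Finset.prod_pos fun p hp => (mem_filter.1 hp).2.1.pos
  have hq : ∀ p : ℕ, p.Prime → p ≤ 4 * kc → ¬ p ∣ W → p ∣ q := by
    intro p hp hpk hpW
    exact Finset.dvd_prod_of_mem (fun p => p)
      (mem_filter.2 ⟨mem_range.2 (by omega), hp, hpW⟩)
  refine ⟨q ^ 2 * kc, fun f hf hfV => ?_⟩
  have hpig : ∀ b : Fin 4, ∃ e : Fin kc → Fin (q ^ 2 * kc), Function.Injective e ∧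
      ∀ i j, (((f (b, e i)).1 : ℕ) : ZMod q) = (((f (b, e j)).1 : ℕ) : ZMod q) ∧
        (((f (b, e i)).2 : ℤ) : ZMod q) = (((f (b, e j)).2 : ℤ) : ZMod q) := fun b =>
    GR_pigeon hq0 le_rfl (fun s => f (b, s))
  choose e he hee using hpig
  set ix : Fin (4 * kc) → Fin 4 × Fin (q ^ 2 * kc) :=
    fun i => (cl4 i, e (cl4 i) (finProdFinEquiv.symm i).2) with hix
  have hixinj : Function.Injective ix := by
    intro i j h
    simp only [hix, Prod.mk.injEq] at h
    obtain ⟨h1, h2⟩ := h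
    rw [h1] at h2
    have h3 := he _ h2
    apply finProdFinEquiv.symm.injective
    exact Prod.ext h1 h3
  set F : Fin (4 * kc) → ℕ × ℤ := fun i => f (ix i) with hF
  have hFinj : Function.Injective F := hf.comp hixinj
  have hFV : ∀ i, Vx W (F i) := fun i => hfV _
  have hcl : ∀ i j, cl4 i = cl4 j → (((F i).1 : ℕ) : ZMod q) = (((F j).1 : ℕ) : ZMod q) ∧
      (((F i).2 : ℤ) : ZMod q) = (((F j).2 : ℤ) : ZMod q) := by
    intro i j hij
    simp only [hF, hix]
    rw [hij]
    exact hee _ _ _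
  have hN := hmain (fun i => (F i).1) (fun i => -(F i).2) (fun i => (hFV i).1) (by
    intro i j hij h
    apply hij
    apply hFinj
    refine GR_prop (hFV i).1 (hFV j).1 (hFV i).2.1 (hFV j).2.1 ?_
    linarith) (GR4_adm h6 hq F hFV hcl)
  by_contra hcon
  push Not at hcon
  set T : Fin (4 * kc) × Fin (4 * kc) → Set ℕ := fun ij => {n : ℕ | cl4 ij.1 ≠ cl4 ij.2 ∧
    (((F ij.1).1 : ℤ) * n + -(F ij.1).2).toNat.Prime ∧
    (((F ij.2).1 : ℤ) * n + -(F ij.2).2).toNat.Prime} with hT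
  have hTfin : ∀ ij, (T ij).Finite := by
    rintro ⟨i, j⟩
    by_cases hij : cl4 i = cl4 j
    · have : T (i, j) = ∅ := by
        ext n
        simp [hT, hij]
      rw [this]
      exact Set.finite_empty
    · by_contra hinf
      refine hcon (ix i) (ix j) hij ?_
      unfold Rl
      refine Set.Infinite.mono ?_ hinf
      rintro n ⟨_, h1, h2⟩
      exact ⟨by simpa [sub_eq_add_neg] using h1, by simpa [sub_eq_add_neg] using h2⟩
  have hunion : (⋃ ij, T ij).Finite := Set.finite_iUnion hTfin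
  obtain ⟨N, hN'⟩ := hunion.bddAbove
  obtain ⟨n, hn, i, j, hij, hi, hj⟩ := hN (N + 1)
  have h1 : n ∈ ⋃ ij, T ij := Set.mem_iUnion.mpr ⟨(i, j), hij, hi, hj⟩
  have h2 := hN' h1
  omega

theorem GR (h4 : CM4_stmt) : GRk (1 / 3) 6 := by
  classical
  intro W hW h6 ε hε
  obtain ⟨t, ht⟩ := GR4_blocks h4 W h6
  obtain ⟨K, hK⟩ := es_third t hε
  refine ⟨K, fun S hS => ?_⟩
  have h := hK Rl S (fun x y h => h.mono fun n hn => ⟨hn.2, hn.1⟩)
    (fun f hf hfS => ht f hf fun x => hS _ (hfS x))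
  convert h using 3

end Pool.Agent.helper11.MK
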